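import Pool.Agent.H180.PG.Stm

/-! Job PG-NodeTop (helper58). -/

set_option autoImplicit false

open Set Topology Cardinal

namespace Pool.Agent.Q58.PG

open Pool.Agent.H180.PG

/-- top nodes are functions -/
noncomputable def topEquiv (K : Type) : {p : Node K // Top p} ≃ (W → K) where
  toFun p a := (p.1.1 a).get (Option.isSome_iff_ne_none.2 (p.2 a))
  invFun f := ⟨⟨fun a => some (f a), fun _ _ _ _ => Option.some_ne_none _⟩,
    fun _ => Option.some_ne_none _⟩
  left_inv p := by
    apply Subtype.ext
    apply Subtype.ext
    funext a
    exact Option.some_get _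
  right_inv f := by
    funext a
    rfl

theorem nodeTop : S_NodeTop := by
  intro K
  rw [Cardinal.mk_congr (topEquiv K)]
  have hW : #W = aleph 1 := Cardinal.mk_ord_toType _
  rw [← hW, Cardinal.power_def]

end Pool.Agent.Q58.PG
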